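import Pool.Agent.Lib.MP_fd6cd5_an.Count

/-!
# The number of isomorphism classes of Grothendieck spaces `c_{0,I}`

There are exactly `2 ^ (2 ^ ℵ₀)` pairwise non-isomorphic Grothendieck spaces of the form `c_{0,I}`.

Sketch.  Fix a nonprincipal ultrafilter `p` on `ω`.  For every ideal `J` on `ω` let `pp J` be the
ideal of all `A ⊆ ω × ω` such that `{n : A_n ∈ J} ∈ p`.  Then `c_{0, pp J}` is a Grothendieck space
(`groth_pp`).  Take an almost disjoint family `(A_x)`, `x ∈ 2^ω`, and for `S ⊆ 2^ω` let `J_S` be
generated by the finite sets and the sets `A_x`, `x ∈ S`.  The sets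
`C_x = {(n,k) : k ∈ A_x, n ≤ k}` are almost disjoint and `C_x ∈ pp J_S` if and only if `x ∈ S`.
If `T₁ : c_{0, pp J_S} → X` and `T₂ : c_{0, pp J_{S'}} → X` are isomorphisms onto the same space
`X = c_{0, pp J_{S''}}` that agree at the unit vectors, then, after extending everything to
operators of `ℓ_∞`, all but countably many `x` satisfy `T₁ 1_{C_x} = T₂ 1_{C_x}`, and so `S` and
`S'` differ by a countable set.  Hence each isomorphism class contains at most `2 ^ ℵ₀` of the
`2 ^ (2 ^ ℵ₀)` sets `S`.
-/

open scoped Cardinal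

namespace Pool.Agent.Results.MP_fd6cd5_an.NumberOfClasses

open Pool.Agent.Lib.MP_fd6cd5_an

/-- The number of isomorphism classes of Grothendieck spaces of the form `c_{0,I}`, with `I` a
proper ideal on `ω` containing the finite sets, is `2 ^ (2 ^ ℵ₀)`. -/
theorem result : #(Quotient isoSetoid) = 2 ^ ((2 : Cardinal.{0}) ^ ℵ₀) := by
  rw [Cardinal.two_power_aleph0]
  exact le_antisymm upper lower

end Pool.Agent.Results.MP_fd6cd5_an.NumberOfClasses
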